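import Pool.Agent.H72.GP.Targets
import Pool.Agent.H83.PSV.GSP

/-!
# Row GSP (board gpo_modules): from the local expansions to the values of the forms

Port of the second part of `Pool.Agent.H83.PSV.GSP`.
-/

set_option autoImplicit false

open Polynomial Finset
open Pool.Agent.H72.GP
open Pool.Agent.H85.PS (II MM Vec Sup Deg Jf Typ Maj Tay)
open Pool.Agent.H83.PSV (tp tp_apply mem_II sum_add_single X_dvd_der)

namespace Pool.Agent.H54.GPO

/-- one factor of the local expansion -/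
noncomputable def wk {s : ℕ} (L : Fin s → PowerSeries ℚ) (e' e : Fin s → ℕ) (k : Fin s) :
    PowerSeries ℚ := ((e k).choose (e' k) : PowerSeries ℚ) * L k ^ (e k - e' k)

/-- the product -/
noncomputable def wp {s : ℕ} (L : Fin s → PowerSeries ℚ) (e' e : Fin s → ℕ) : PowerSeries ℚ :=
  ∏ k, wk L e' e k

theorem GG_eq {s : ℕ} (L : Fin s → PowerSeries ℚ) (z0 : ℚ) (D : ℕ) (A : Vec s) (e' : Fin s → ℕ) :
    GG L z0 D A e' = ∑ e ∈ II s D, tp z0 (A e) * wp L e' e := by
  unfold GG wp wk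
  refine Finset.sum_congr rfl fun e _ => ?_
  rw [Finset.prod_mul_distrib, tp_apply, mul_assoc]

theorem Sup_nab {s : ℕ} (D : ℕ) (S : Sy s) (A : Vec s) (hA : Sup D A) :
    Sup D (nab S A) := by
  intro e he
  unfold nab
  rw [hA e he, derivative_zero, mul_zero, zero_add]
  refine Finset.sum_eq_zero fun k _ => ?_
  rw [hA (e + Pi.single k 1) (by rw [sum_add_single]; omega), mul_zero]

/-- the combination -/
noncomputable def Ph {s : ℕ} (D : ℕ) (L : Fin s → PowerSeries ℚ) (z0 : ℚ) (Λ : (Fin s → ℕ) → ℚ)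
    (A : Vec s) : PowerSeries ℚ := ∑ e ∈ II s D, Λ e • GG L z0 D A e

theorem der_Ph (hD : T_DGG) {s : ℕ} (D : ℕ) (S : Sy s) (L : Fin s → PowerSeries ℚ) (z0 : ℚ)
    (Λ : (Fin s → ℕ) → ℚ) (A : Vec s) (hL : Lo S z0 L) (hA : Sup D A) :
    tp z0 S.th * PowerSeries.derivative ℚ (Ph D L z0 Λ A) = Ph D L z0 Λ (nab S A) := by
  unfold Ph
  rw [map_sum, Finset.mul_sum]
  refine Finset.sum_congr rfl fun e _ => ?_
  rw [Derivation.map_smul, mul_smul_comm, tp_apply, hD s D S z0 L A hL hA e]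

theorem dvd_iter (hD : T_DGG) {s : ℕ} (D : ℕ) (S : Sy s) (L : Fin s → PowerSeries ℚ) (z0 : ℚ)
    (Λ : (Fin s → ℕ) → ℚ) (A : Vec s) (hL : Lo S z0 L) (hA : Sup D A) (n : ℕ)
    (h : (PowerSeries.X : PowerSeries ℚ) ^ n ∣ Ph D L z0 Λ A) (i : ℕ) :
    Sup D (nabI S i A) ∧
      (PowerSeries.X : PowerSeries ℚ) ^ (n - i) ∣ Ph D L z0 Λ (nabI S i A) := by
  induction i with
  | zero => exact ⟨hA, h⟩
  | succ i ih =>
    have h1 : nabI S (i + 1) A = nab S (nabI S i A) := by
      unfold nabI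
      rw [Function.iterate_succ_apply']
    rw [h1]
    refine ⟨Sup_nab D S _ ih.1, ?_⟩
    rw [← der_Ph hD D S L z0 Λ _ hL ih.1]
    have h2 := X_dvd_der (n - i) _ ih.2
    have h3 : n - i - 1 = n - (i + 1) := by omega
    rw [h3] at h2
    exact Dvd.dvd.mul_left h2 _

theorem const_GG {s : ℕ} (D : ℕ) (L : Fin s → PowerSeries ℚ) (z0 : ℚ) (B : Vec s)
    (hlam : ∀ k, PowerSeries.constantCoeff (L k) = 0) (e' : Fin s → ℕ)
    (he' : e' ∈ II s D) : PowerSeries.coeff 0 (GG L z0 D B e') = (B e').eval z0 := by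
  rw [GG_eq, map_sum]
  have hw : ∀ e, PowerSeries.constantCoeff (wp L e' e) = if e = e' then 1 else 0 := by
    intro e
    unfold wp
    rw [map_prod]
    split_ifs with h
    · refine Finset.prod_eq_one fun k _ => ?_
      unfold wk
      rw [h]; simp
    · obtain ⟨k, hk⟩ := Function.ne_iff.1 h
      refine Finset.prod_eq_zero (Finset.mem_univ k) ?_
      unfold wk
      rcases Nat.lt_or_ge (e k) (e' k) with h1 | h1
      · rw [Nat.choose_eq_zero_of_lt h1]; simp
      · have h2 : e k - e' k ≠ 0 := by omega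
        rw [map_mul, map_pow, hlam, zero_pow h2, mul_zero]
  rw [Finset.sum_eq_single e']
  · rw [PowerSeries.coeff_zero_eq_constantCoeff_apply, map_mul, hw, if_pos rfl, mul_one, tp_apply,
      ← PowerSeries.coeff_zero_eq_constantCoeff_apply, Polynomial.coeff_coe, taylor_coeff_zero]
  · intro e _ hne
    rw [PowerSeries.coeff_zero_eq_constantCoeff_apply, map_mul, hw, if_neg hne, mul_zero]
  · intro h; exact (h he').elim

theorem pf_GSP (hDGG : T_DGG) : T_GSP := by
  intro s D S z0 L A hL hA Λ n h i hi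
  have h1 : (PowerSeries.X : PowerSeries ℚ) ^ n ∣ Ph D L z0 Λ A := by
    rw [PowerSeries.X_pow_dvd_iff]
    intro m hm
    unfold Ph
    rw [map_sum, ← h m hm]
    refine Finset.sum_congr rfl fun e _ => ?_
    rw [PowerSeries.coeff_smul, smul_eq_mul]
    rfl
  have h2 := (dvd_iter hDGG D S L z0 Λ A hL hA n h1 i).2
  rw [PowerSeries.X_pow_dvd_iff] at h2
  have h3 := h2 0 (by omega)
  unfold Ph at h3
  rw [map_sum] at h3
  rw [← h3]
  refine Finset.sum_congr rfl fun e he => ?_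
  rw [PowerSeries.coeff_smul, smul_eq_mul, const_GG D L z0 _ (fun k => (hL k).1) e he]

end Pool.Agent.H54.GPO
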